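import Pool.Agent.Run7.h718.AF.Fin
import Pool.Agent.Run7.h718.HC.Hyp

/-!
# Entire curves given by functional equations in nearly generic hypersurfaces of degree `≥ 2 n + 2`

Let `F` be a form of degree `d ≥ 2 n + 2 + s` in `n + 2` variables, and let `N` be the dimension of
the space of these forms up to factors. We assume that the ratios of the coefficients of `F` generate
a field of transcendence degree at least `N - s` over a field `k`, for example the field of the
rational numbers. For `s = 0` this means that the ratios are algebraically independent; for `s > 0`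
it means that `F` is not in any closed set of codimension more than `s` which is defined over `k`. In
particular, for `k = ℚ`, this holds for all `F` outside a countable union of closed sets of
codimension more than `s`, and there are no assumptions on the singularities of `F = 0`.

Let `f` be an entire curve in the hypersurface `F = 0`. Let `g` be a nonconstant polynomial, no
iterate `g^k` of which is the identity, and assume that `f (g^m (z))` is a rational function of
`f z`, `f (g (z))`, ..., `f (g^{m - 1} (z))`, with coefficients which are polynomials in entire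
functions `c 1, ..., c l` such that the `c i (g (z))` are rational functions of the `c j z`; for
example polynomials in `z`, of any order `m` (`FunEq`). Then `f` is constant, or `g (z) = z + b` is a
translation, `f (z + k b) = f z` for some `k > 0`, and the homogeneous coordinates of `f` are not all
of exponential type.
-/

set_option autoImplicit false

open MvPolynomial
open Pool.Agent.Run7.h718.SP (FunEq)
open Pool.Agent.Run7.h718.AF (ExpType)

/-- **Entire curves given by functional equations in nearly generic hypersurfaces.** -/
theorem Pool.Agent.Results.MP_b509a1_ag.FunctionalEquationCurves.result {k : Type} [Field k]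
    [Algebra k ℂ] {n d s : ℕ} (hd : 2 * n + 2 + s ≤ d) {F : MvPolynomial (Fin (n + 2)) ℂ}
    (hF : F.IsHomogeneous d) {α₀ : Fin (n + 2) →₀ ℕ} (h0 : coeff α₀ F ≠ 0)
    (hgen : (Nat.card {α : Fin (n + 2) →₀ ℕ // α.degree = d ∧ α ≠ α₀} : Cardinal) ≤
      Algebra.trdeg k (IntermediateField.adjoin k
        (Set.range fun α : Fin (n + 2) →₀ ℕ => coeff α F / coeff α₀ F)) + s)
    {f : ℂ → Fin (n + 2) → ℂ} (hf : Differentiable ℂ f) (hfne : ∀ z, f z ≠ 0)
    (hfF : ∀ z, eval (f z) F = 0) {g : Polynomial ℂ} {m : ℕ} (hg : 0 < g.natDegree)
    (hgi : ∀ k, 0 < k → ∃ z, (fun x => g.eval x)^[k] z ≠ z) (hE : FunEq g m f) :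
    (∀ z, ∃ c : ℂ, f z = c • f 0) ∨
      (∃ b : ℂ, g = Polynomial.X + Polynomial.C b ∧
        ∃ k : ℕ, 0 < k ∧ ∀ z, ∃ u : ℂ, f (z + k * b) = u • f z) ∧
      ¬ ∀ j, ExpType fun z => f z j := by
  by_contra hcon
  rw [not_or] at hcon
  refine hcon.1 (Pool.Agent.Run7.h718.HC.const_of_generic hd hF h0 hgen hf hfne hfF ?_)
  intro p K _ _ w y hy hcu hde hgt
  obtain ⟨c, hc⟩ := Pool.Agent.Run7.h718.AF.fin_main hy hcu hde hgt
  obtain ⟨⟨b, h1, -, h2⟩, h3⟩ := hc g m hg hgi hE
  exact hcon.2 ⟨⟨b, h1, h2⟩, h3⟩
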