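import Pool.Agent.Run7.h302.GH.Cst

/-!
# Gap series and entire curves in general hypersurfaces

Let `d ≥ 2 n + 2`. A general hypersurface `X` of degree `d` in the projective space of dimension
`n + 1` (general: outside the zero set of one nonzero polynomial in the coefficients) contains no
transcendental entire curve with homogeneous coordinates that are polynomials of degree at most `e`
in entire functions with Hadamard gaps, with polynomial coefficients; neither the number nor the
growth of the gap functions, nor the degree of the coefficients is bounded. All holomorphic maps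
of this kind from the punctured disc to `X` extend. If the coefficients are arbitrary functions
that satisfy algebraic differential equations then the gap functions can be replaced by rational
functions. If the gap functions and `1` are linearly independent over the rational functions, and
the coefficients have bounded complexity, then the entire curves are constant.

The proof. By the starting results on relations between gap functions (`TH600.LC`), through each
point of such a curve there pass curves `t ↦ (∑_α c_{j α}(z) (A + B t)^α)_j` which lie in `X`: they are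
rational curves of degree at most `e`. By the starting results on general hypersurfaces (`V1153.GH`)
there are none, so all points of the family with the same `z` are equal, and the gap functions can
be replaced by the rational functions that arise from fixed values of a basis of the gap functions.
-/

set_option autoImplicit false

namespace Pool.Agent.Results.MP_b509a1_ag.GapSeriesCurves

open MvPolynomial Set
open Pool.Agent.V1153.UG Pool.Agent.W603.BP
open Run7.h302.GH
open Pool.Agent.TH600.LC (HadamardGaps DAlg differentiable_eval)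
open Run7.h302.PG (extends_of_par ent_zero_big inv_big scal_ne smul_form)

variable {n : ℕ}

/-- `f` is the vector of entire homogeneous coordinates without common zeros of an entire curve in
the hypersurface `F = 0`. -/
structure Ent (F : MvPolynomial (Fin (n + 2)) ℂ) (f : ℂ → Fin (n + 2) → ℂ) : Prop where
  diff : ∀ j, Differentiable ℂ fun z => f z j
  ne : ∀ z, f z ≠ 0
  mem : ∀ z, eval (f z) F = 0

/-- `f` is the vector of homogeneous coordinates without common zeros of a holomorphic map from the
punctured unit disc to the hypersurface `F = 0`. -/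
structure Pun (F : MvPolynomial (Fin (n + 2)) ℂ) (f : ℂ → Fin (n + 2) → ℂ) : Prop where
  an : ∀ j, AnalyticOnNhd ℂ (fun w => f w j) {w : ℂ | w ≠ 0 ∧ ‖w‖ < 1}
  ne : ∀ w : ℂ, w ≠ 0 → ‖w‖ < 1 → f w ≠ 0
  mem : ∀ w : ℂ, w ≠ 0 → ‖w‖ < 1 → eval (f w) F = 0

/-- The entries of `h`, not all zero, are (perhaps with common zeros) homogeneous coordinates of the
curve `f`. -/
def Coord (f h : ℂ → Fin (n + 2) → ℂ) : Prop :=
  (∃ z, h z ≠ 0) ∧ ∀ z j k, f z j * h z k = f z k * h z j

/-- Let `d ≥ 2 n + 2`. For all `e`, `s`, `r`, `k`, `δ` there is a polynomial `Φ` in the coefficients of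
the forms of degree `d` in `n + 2` variables, not zero at all forms, such that for all forms `F` of
degree `d` with `Φ(F) ≠ 0` the following holds. Let `g_1, …, g_m` be entire functions with Hadamard
gaps at some point `z₀`, and `h_j = ∑ α ∈ T, c_{j α} g ^ α`, `|α| ≤ e`, with entire functions
`c_{j α}` that satisfy algebraic differential equations (`GapData e z₀ T c g`, `h = H T c g`).

(1) For each entire curve in `F = 0` with the homogeneous coordinates `h` there are polynomials
`a ≠ 0` and `v_1, …, v_m` such that it has the homogeneous coordinates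
`∑ α ∈ T, c_{j α} a ^ (e - |α|) v ^ α`.

(2) If the `c_{j α}` are polynomials then all entire curves in `F = 0` with the homogeneous
coordinates `h` are rational curves, given by polynomials, and all holomorphic maps from the
punctured unit disc to `F = 0` with the homogeneous coordinates `h (1 / w)`, without common zeros,
extend to the disc.

(3) If there is no linear relation with polynomial coefficients between `1, g_1, …, g_m` and the
`c_{j α}` are of complexity at most `(s, r, k, δ)`, then all entire curves in `F = 0` with the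
homogeneous coordinates `h` are constant. -/
theorem result (n d : ℕ) (hd : 2 * n + 2 ≤ d) (e s r k δ : ℕ) :
    ∃ Φ : MvPolynomial (Fin (n + 2) →₀ ℕ) ℂ,
      (∃ F₀ : MvPolynomial (Fin (n + 2)) ℂ, F₀.IsHomogeneous d ∧
        eval (fun m => coeff m F₀) Φ ≠ 0) ∧
      ∀ F : MvPolynomial (Fin (n + 2)) ℂ, F.IsHomogeneous d → eval (fun m => coeff m F) Φ ≠ 0 →
        ∀ (m : ℕ) (z₀ : ℂ) (T : Finset (Fin m → ℕ)) (c : Fin (n + 2) → (Fin m → ℕ) → ℂ → ℂ)
          (g : Fin m → ℂ → ℂ), GapData e z₀ T c g →
          (∀ f, Ent F f → Coord f (H T c g) →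
            ∃ (a : Polynomial ℂ) (v : Fin m → Polynomial ℂ), a ≠ 0 ∧
              Coord f fun z j => ∑ α ∈ T, c j α z *
                (a.eval z ^ (e - ∑ i, α i) * ∏ i, (v i).eval z ^ α i)) ∧
          ((∀ j, ∀ α ∈ T, ∃ P : Polynomial ℂ, ∀ z, c j α z = P.eval z) →
            (∀ f, Ent F f → Coord f (H T c g) →
              ∃ R : Fin (n + 2) → Polynomial ℂ, Coord f fun z j => (R j).eval z) ∧
            ∀ f, Pun F f →
              (∀ w : ℂ, w ≠ 0 → ‖w‖ < 1 → ∃ μ : ℂ, f w = μ • H T c g w⁻¹) → Extends f) ∧
          (Indep g → CoefCx s r k δ T c → ∀ f, Ent F f → Coord f (H T c g) →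
            ∀ z, ∃ μ : ℂ, f z = μ • f 0) := by
  obtain ⟨N, hN⟩ := fam_none (n + 1) d s r k δ
  obtain ⟨Φ, h1, h2⟩ := Pool.Agent.V1153.GH.gen_hyp (n := n + 1) (d := d) (by omega) (max e N)
  refine ⟨Φ, h1, fun F hF hFΦ m z₀ T c g hD => ?_⟩
  have hno : ∀ P, ¬ GmBdd (Ideal.span {F}) 1 e P := fun P hP =>
    h2 F hF hFΦ P ⟨fun j => (hP.deg j).trans (le_max_left _ _), hP.mem, hP.off, hP.nc⟩
  have hno' : ∀ P, ¬ GmBdd (Ideal.span {F}) 1 N P := fun P hP =>
    h2 F hF hFΦ P ⟨fun j => (hP.deg j).trans (le_max_right _ _), hP.mem, hP.off, hP.nc⟩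
  have hdH : ∀ j, Differentiable ℂ fun z => H T c g z j := fun j =>
    diff_W (fun α hα => (hD.coef j α hα).1) (fun i => (hD.gap i).1)
  have hpoly : (∀ j, ∀ α ∈ T, ∃ P : Polynomial ℂ, ∀ z, c j α z = P.eval z) →
      ∀ (a : Polynomial ℂ) (v : Fin m → Polynomial ℂ), ∃ R : Fin (n + 2) → Polynomial ℂ,
        ∀ z j, ∑ α ∈ T, c j α z * (a.eval z ^ (e - ∑ i, α i) * ∏ i, (v i).eval z ^ α i) =
          (R j).eval z := by
    intro hP a v
    choose! P hP using hP
    refine ⟨fun j => ∑ α ∈ T, P j α * (a ^ (e - ∑ i, α i) * ∏ i, v i ^ α i), fun z j => ?_⟩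
    rw [Polynomial.eval_finsetSum]
    refine Finset.sum_congr rfl fun α hα => ?_
    rw [hP j α hα, Polynomial.eval_mul, Polynomial.eval_mul, Polynomial.eval_pow,
      Polynomial.eval_prod]
    simp only [Polynomial.eval_pow]
  have hone : ∀ f, Ent F f → Coord f (H T c g) →
      ∃ (a : Polynomial ℂ) (v : Fin m → Polynomial ℂ), a ≠ 0 ∧
        Coord f fun z j => ∑ α ∈ T, c j α z *
          (a.eval z ^ (e - ∑ i, α i) * ∏ i, (v i).eval z ^ α i) := by
    rintro f hf ⟨h0, hp⟩
    obtain ⟨a, v, ha, ⟨z1, j1, hz1⟩, hpar⟩ := replace hno hD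
      (fun z => eval_par hF (hf.ne z) (hp z) (hf.mem z)) h0
    refine ⟨a, v, ha, ⟨z1, fun h3 => hz1 (congrFun h3 j1)⟩, fun z j k => ?_⟩
    have hdu : ∀ j, Differentiable ℂ fun z =>
        ∑ α ∈ T, c j α z * (a.eval z ^ (e - ∑ i, α i) * ∏ i, (v i).eval z ^ α i) := by
      intro j
      refine Differentiable.fun_sum fun α hα => (hD.coef j α hα).1.mul ?_
      refine (a.differentiable.pow _).mul ?_
      exact Differentiable.fun_finsetProd fun i _ => (v i).differentiable.pow _
    have h3 := par_trans (f := f) (h := H T c g) (u := fun z j => ∑ α ∈ T, c j α z *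
      (a.eval z ^ (e - ∑ i, α i) * ∏ i, (v i).eval z ^ α i)) hf.diff hdH hdu h0 hp hpar z k j
    linear_combination h3
  refine ⟨hone, fun hc => ⟨fun f hf hfh => ?_, fun f hf hfh => ?_⟩, fun hg hcx f hf hfh z => ?_⟩
  · obtain ⟨a, v, -, hu⟩ := hone f hf hfh
    obtain ⟨R, hR⟩ := hpoly hc a v
    refine ⟨R, ?_⟩
    have h3 : (fun (z : ℂ) (j : Fin (n + 2)) => (R j).eval z) = fun z j => ∑ α ∈ T, c j α z *
        (a.eval z ^ (e - ∑ i, α i) * ∏ i, (v i).eval z ^ α i) :=
      funext fun z => funext fun j => (hR z j).symm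
    rw [h3]
    exact hu
  · have hFh : ∀ z, eval (H T c g z) F = 0 := by
      refine ent_zero_big (differentiable_eval hdH F) fun z hz => ?_
      obtain ⟨h3, h4⟩ := inv_big hz
      obtain ⟨μ, hμ⟩ := hfh z⁻¹ h3 h4
      have h5 := hf.mem _ h3 h4
      have h6 : μ ≠ 0 := scal_ne (hf.ne _ h3 h4) hμ
      rw [hμ, inv_inv, smul_form hF] at h5
      exact (mul_eq_zero.1 h5).resolve_left (pow_ne_zero _ h6)
    have h0 : ∃ z, H T c g z ≠ 0 := by
      refine ⟨2, fun h0 => ?_⟩
      obtain ⟨h3, h4⟩ := inv_big (z := 2) (by simp)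
      obtain ⟨μ, hμ⟩ := hfh 2⁻¹ h3 h4
      rw [inv_inv, h0, smul_zero] at hμ
      exact hf.ne _ h3 h4 hμ
    obtain ⟨a, v, ha, ⟨z1, j1, hz1⟩, hpar⟩ := replace hno hD hFh h0
    obtain ⟨R, hR⟩ := hpoly hc a v
    refine extends_of_par (R := R) hf.an (fun w hw => hf.ne w hw.1 hw.2) ⟨j1, fun h3 => hz1 ?_⟩
      fun w hw j k => ?_
    · rw [hR, h3, Polynomial.eval_zero]
    · obtain ⟨μ, hμ⟩ := hfh w hw.1 hw.2
      have h3 := hpar w⁻¹ j k
      rw [hR, hR] at h3
      rw [hμ]
      simp only [Pi.smul_apply, smul_eq_mul]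
      linear_combination μ * h3
  · exact const (fun E Q h3 h4 => (hN E Q h3 h4).1) hF hno hno' hD hg hcx hfh.1 hf.diff hf.ne
      hf.mem hfh.2 z 0

end Pool.Agent.Results.MP_b509a1_ag.GapSeriesCurves
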