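import Pool.Agent.Run7.h34.GK.Main

/-!
MP_b509a1_ag, Q1: general hypersurfaces of degree at least `2 n + 2` in `P^(n+1)`; curves, and
varieties over the hypersurface, which are highly ramified over `n + 2` hyperplanes.

`Form (n + 1)`: the linear forms on `ℂ^(n+2)`. `formK φ b` is the value of the linear form `φ` at
the vector `b` over a field `L` which contains `ℂ`. `RamifiedCurve m ℓ S f`, `RamifiedPlace m ℓ b P`
(`Pool/Agent/Run7/h34/GK/Main.lean`): ramification to order at least `m` over the hyperplanes
`ℓ i = 0`. `Extends f` (`Pool/Agent/W603/BP/Extn.lean`): the map to the projective space with the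
homogeneous coordinates `f` extends from the punctured unit disc to the disc.
`LogGeneralType ℂ L w Bd` (`Pool/Agent/W602/GT/Defs.lean`): the variety with the function field `L`,
of dimension `w`, such that the places without centre on it are those in `Bd`, is of log general
type.
-/

set_option autoImplicit false

namespace Pool.Agent.Results.MP_b509a1_ag.RamifiedCurves

open MvPolynomial Metric Pool.Agent.W602.GT Pool.Agent.W602.Cov Pool.Agent.W602.Cov.R
  Pool.Agent.W603.BP Pool.Agent.TH152.HY Run7.h34.GK

/-- For all `n` and all `d ≥ 2 n + 2` there are a number `m` and a polynomial `Φ` in the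
coefficients of the forms of degree `d` in `n + 2` variables, which does not vanish at all of them,
such that for all forms `F` of degree `d` at which `Φ` does not vanish and for all systems of `n + 2`
hyperplanes `ℓ i = 0` without common points:

(1) all entire curves in the hypersurface `F = 0` which are ramified to order at least `m` over the
hyperplanes are constant;

(2) all holomorphic maps from the punctured disc to the hypersurface which are ramified to order at
least `m` over the hyperplanes extend to the disc;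

(3) all quasi-projective varieties of positive dimension with a generically finite map to a closed
subvariety of the hypersurface which is ramified to order at least `m` over the hyperplanes are of
log general type. The variety is given by its function field `L` and the set `Bd` of the discrete
valuations of `L` without centre on it, and the map by the homogeneous coordinates `b` over `L`. -/
theorem result (n d : ℕ) (hd : 2 * n + 2 ≤ d) :
    ∃ (m : ℕ) (Φ : MvPolynomial (Fin (n + 2) →₀ ℕ) ℂ),
      (∃ F₀ : MvPolynomial (Fin (n + 2)) ℂ, F₀.IsHomogeneous d ∧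
        eval (fun α => coeff α F₀) Φ ≠ 0) ∧
      ∀ F : MvPolynomial (Fin (n + 2)) ℂ, F.IsHomogeneous d → eval (fun α => coeff α F) Φ ≠ 0 →
        ∀ ℓ : Fin (n + 2) → Form (n + 1), (∀ x, (∀ i, ℓ i x = 0) → x = 0) →
          (∀ f : ℂ → Fin (n + 2) → ℂ, Differentiable ℂ f → (∀ z, f z ≠ 0) →
            (∀ z, eval (f z) F = 0) → RamifiedCurve m ℓ Set.univ f →
            ∀ z, ∃ c : ℂ, f z = c • f 0) ∧
          (∀ f : ℂ → Fin (n + 2) → ℂ, DifferentiableOn ℂ f (ball 0 1 \ {0}) →
            (∀ z ∈ ball (0 : ℂ) 1 \ {0}, f z ≠ 0 ∧ eval (f z) F = 0) →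
            RamifiedCurve m ℓ (ball 0 1 \ {0}) f → Extends f) ∧
          ∀ (L : Type) [Field L] [Algebra ℂ L] (b : Fin (n + 2) → L) (w : ℕ)
            (Bd : FF.Place ℂ L → Prop), b ≠ 0 → aeval b F = 0 → Algebra.trdeg ℂ L = w → 0 < w →
            Algebra.IsAlgebraic
              (IntermediateField.adjoin ℂ {f : L | ∃ i j, b j ≠ 0 ∧ f = b i / b j}) L →
            (∀ P : FF.Place ℂ L, ¬ Bd P → RamifiedPlace m ℓ b P) → LogGeneralType ℂ L w Bd := by
  obtain ⟨Φ, h1, h2⟩ := Pool.Agent.V1153.GH.gen_hyp (n := n + 1) (d := d) (by omega)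
    (Run7.h34.OK.BB (n + 1) d)
  refine ⟨Run7.h34.UG.mm (n + 1) d, Φ, h1, fun F hF hΦ ℓ hℓ => ?_⟩
  have h3 := h2 F hF hΦ
  have hind : LinearIndependent ℂ ℓ := lin_of hℓ
  refine ⟨fun f hf hf0 hfF hr z => entire_const hF h3 hind hf hf0 hfF hr z 0,
    fun f hf hfF hr => ?_, fun L _ _ b w Bd hb hFb htr hw halg hr =>
      lgt_of hF h3 hind hb hFb hw htr halg hr⟩
  refine disc_ext hF h3 hind (Pool.Agent.W601.PH.an_of_diffOn hf)
    (fun z hz => (hfF z (mem_disc.2 hz)).1) (fun z hz => (hfF z (mem_disc.2 hz)).2) ?_
  intro z hz hex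
  obtain ⟨i, ⟨z', hz', h4⟩, h5⟩ := hr z (mem_disc.2 hz) (by
    obtain ⟨i, ⟨z', hz', h4⟩, h5⟩ := hex
    exact ⟨i, ⟨z', mem_disc.2 hz', h4⟩, h5⟩)
  exact ⟨i, ⟨z', mem_disc.1 hz', h4⟩, h5⟩

end Pool.Agent.Results.MP_b509a1_ag.RamifiedCurves
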